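import Pool.Agent.Helper486.Del.Final

/-!
# Extremal sizes of Delaunay triangulations in three dimensions

For all `4 ≤ n' ≤ n` the smallest and the largest number of tetrahedra of the Delaunay
triangulation of `n` points of `ℝ³` with `n'` extremal points are determined, both for the
convention of the problem and for sets in general position.
-/

namespace Pool.Agent.Results.MP_68998a_co.DelaunaySizes

open Pool.Agent.Helper486.Del

/-- For all `4 ≤ n' ≤ n`:
* among the sets of `n` points of `ℝ³`, not in a plane, no five cospherical, with exactly `n'`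
  extremal points, the minimum of `|DT(T)|` is `n - 3` and the maximum is `n (n - 3) / 2 + 3 - n'`;
* among those in which moreover no four points are coplanar, the minimum is `3 n - 2 n' - 3` and
  the maximum is `n (n - 3) / 2 + 3 - n'`. -/
theorem result (n n' : ℕ) (h4 : 4 ≤ n') (hn : n' ≤ n) :
    (IsLeast (sizes n n') (n - 3) ∧
      IsGreatest (sizes n n') (n * (n - 3) / 2 + 3 - n')) ∧
    (IsLeast (sizesGeneral n n') (3 * n - 2 * n' - 3) ∧
      IsGreatest (sizesGeneral n n') (n * (n - 3) / 2 + 3 - n')) := by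
  obtain ⟨T1, y, τ, a1, a2, a3, a4, a5, _⟩ := min_lit n n' h4 hn
  obtain ⟨T2, b1, b2, b3, b4⟩ := min_gp n n' h4 hn
  obtain ⟨T3, c1, c2, c3, c4, c5, c6⟩ := max_gp n n' h4 hn
  refine ⟨⟨⟨⟨T1, a3, a1, a2, a4, ?_⟩, ?_⟩, ⟨⟨T3, c1, c2, c3, c5, ?_⟩, ?_⟩⟩,
    ⟨⟨T2, b2, b1.nip, b1.five, b1.four, b3, ?_⟩, ?_⟩, ⟨⟨T3, c1, c2, c3, c4, c5, ?_⟩, ?_⟩⟩
  · rw [ncard_DT a2]; omega
  · rintro k ⟨T, h1, h2, h3, h5, h6⟩
    have := min_bound h2 h3
    omega
  · omega
  · rintro k ⟨T, h1, h2, h3, h5, h6⟩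
    have := max_bound h2 h3
    rw [h1] at this
    omega
  · rw [ncard_DT b1.five]; omega
  · rintro k ⟨T, h1, h2, h3, h5, h6, h7⟩
    have := min_bound_gp h2 h3 h5
    omega
  · omega
  · rintro k ⟨T, h1, h2, h3, h5, h6, h7⟩
    have := max_bound h2 h3
    rw [h1] at this
    omega

end Pool.Agent.Results.MP_68998a_co.DelaunaySizes
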